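import Pool.Agent.Q176.Had.Bound
import Pool.Agent.Q176.Had.HR

/-!
# Hadamard order of entire functions on nonpositively curved planes

A smooth conformal (= Kähler) metric on `ℂ` is `g = lam (dx² + dy²)` with `lam : ℂ → ℝ` smooth
and positive.

* `Q176Had.glen lam γ = ∫₀¹ √(lam (γ t)) ‖γ' t‖ dt` is the `g`-length of a `C¹` curve;
* `Q176Had.gdist lam z w` is the infimum of the `g`-lengths of the `C¹` curves from `z` to `w`
  (the Riemannian distance);
* `Q176Had.MetricComplete lam` says that every `gdist`-Cauchy sequence converges.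

We prove that for a complete metric with `-c ≤ K ≤ 0` one has `lam z ≥ κ / (1 + |z|²)` for some
`κ > 0`; hence `log √(1+|z|²) ≤ C d_g(z, 0)` and the entire function `z` has Hadamard order at
most one.
-/

open Filter Topology
open scoped ContDiff

namespace Pool.Agent.Results.MP_1759d0_gt.HadamardOrder

open Q176Had

/-- Gauss curvature `K = -Δ log lam / (2 lam)` of the metric `lam (dx² + dy²)` -/
noncomputable def gaussCurvature (lam : ℂ → ℝ) (z : ℂ) : ℝ :=
  -(Laplacian.laplacian (fun w => Real.log (lam w)) z) / (2 * lam z)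

/-- Hadamard order `limsup_{p → ∞} log log |f p| / log d_g(p, 0)`; points with `|f p| ≤ 1` are
ignored in the limsup -/
noncomputable def ordH (lam : ℂ → ℝ) (f : ℂ → ℂ) : EReal :=
  limsup (fun p : ℂ => ((Real.log (Real.log ‖f p‖) / Real.log (gdist lam p 0) : ℝ) : EReal))
    (cocompact ℂ ⊓ 𝓟 {p | 1 < ‖f p‖})

theorem result (lam : ℂ → ℝ) (hsm : ContDiff ℝ ∞ lam) (hpos : ∀ z, 0 < lam z)
    (hcomp : MetricComplete lam) (c : ℝ) (hc : 0 < c)
    (hK : ∀ z, -c ≤ gaussCurvature lam z ∧ gaussCurvature lam z ≤ 0) :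
    (∃ κ > 0, ∀ z, κ / (1 + ‖z‖ ^ 2) ≤ lam z) ∧
    (∃ C > 0, ∀ z, Real.log (1 + ‖z‖ ^ 2) / 2 ≤ C * gdist lam z 0) ∧
    ordH lam (fun z => z) ≤ 1 ∧
    ∃ f : ℂ → ℂ, Differentiable ℂ f ∧ (∃ a b, f a ≠ f b) ∧ ordH lam f ≤ 1 := by
  have hlamc : Continuous lam := hsm.continuous
  -- the potential
  set u : ℂ → ℝ := fun z => (1 / 2) * Real.log (lam z) with hu
  have hsm2 : ContDiff ℝ 2 lam := by
    have := contDiff_infty.1 hsm 2
    exact_mod_cast this
  have hlog : ContDiff ℝ 2 (fun z => Real.log (lam z)) := hsm2.log (fun z => (hpos z).ne')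
  have huc : ContDiff ℝ 2 u := contDiff_const.mul hlog
  have hexp : ∀ z, Real.exp (2 * u z) = lam z := by
    intro z
    rw [hu]
    simp only
    rw [show 2 * (1 / 2 * Real.log (lam z)) = Real.log (lam z) by ring, Real.exp_log (hpos z)]
  have hlap : ∀ z, lap u z = -(gaussCurvature lam z) * lam z := by
    intro z
    rw [hu, lap_const_mul _ hlog, ← lap_eq_laplacian hlog]
    unfold gaussCurvature
    have := hpos z
    field_simp
  have hsub : ∀ z, 0 ≤ lap u z := by
    intro z
    rw [hlap z]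
    exact mul_nonneg (by linarith [(hK z).2]) (hpos z).le
  have hcurv : ∀ z, lap u z ≤ c * Real.exp (2 * u z) := by
    intro z
    rw [hlap z, hexp z]
    exact mul_le_mul_of_nonneg_right (by linarith [(hK z).1]) (hpos z).le
  have hHR := hopf_rinow hlamc hpos hcomp 0
  have hcut : ∀ R : ℝ, 0 < R → ∃ φ : ℂ → ℝ, ContDiff ℝ 1 φ ∧ HasCompactSupport φ ∧
      (∀ z, 0 ≤ φ z ∧ φ z ≤ 1) ∧ (∀ z, ‖z‖ ≤ R → φ z = 1) ∧
      ∀ z, gsq φ z ≤ 8 * Real.exp (2 * u z) := by
    intro R hR
    obtain ⟨φ, h1, h2, h3, h4, h5⟩ := exists_cutoff hlamc hpos hHR hR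
    exact ⟨φ, h1, h2, h3, h4, fun z => by rw [hexp z]; exact h5 z⟩
  obtain ⟨V, hV⟩ := vv_bounded huc hsub hc.le hcurv (by norm_num : (0 : ℝ) ≤ 8) hcut
  have hwt : ∀ z, wt z ≤ Real.exp (2 * V) * lam z := by
    intro z
    rw [← hexp z, exp_two_u, ← mul_assoc, ← Real.exp_add]
    have h1 : 1 ≤ Real.exp (2 * V + -2 * vv u z) := by
      apply Real.one_le_exp
      linarith [hV z]
    have := wt_pos z
    nlinarith
  have hA : ∃ κ > 0, ∀ z, κ / (1 + ‖z‖ ^ 2) ≤ lam z := by
    refine ⟨Real.exp (-(2 * V)), Real.exp_pos _, ?_⟩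
    intro z
    have h1 := hwt z
    have h2 : Real.exp (-(2 * V)) / (1 + ‖z‖ ^ 2) = Real.exp (-(2 * V)) * wt z := by
      unfold wt; ring
    rw [h2]
    calc Real.exp (-(2 * V)) * wt z ≤ Real.exp (-(2 * V)) * (Real.exp (2 * V) * lam z) :=
          mul_le_mul_of_nonneg_left h1 (Real.exp_pos _).le
      _ = lam z := by rw [← mul_assoc, ← Real.exp_add]; simp
  have hB : ∃ C > 0, ∀ z, Real.log (1 + ‖z‖ ^ 2) / 2 ≤ C * gdist lam z 0 := by
    refine ⟨Real.exp V, Real.exp_pos _, ?_⟩
    have hell : ContDiff ℝ 1 ell := contDiff_ell.of_le (by norm_num)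
    have hgrad : ∀ z, ‖fderiv ℝ ell z‖ ≤ Real.exp V * Real.sqrt (lam z) := by
      intro z
      apply ContinuousLinearMap.opNorm_le_bound _ (by positivity)
      intro w
      have h1 := sq_fderiv_le ell z w
      have h2 : ‖w‖ ^ 2 * gsq ell z ≤ ‖w‖ ^ 2 * (Real.exp (2 * V) * lam z) :=
        mul_le_mul_of_nonneg_left ((gsq_ell_le z).trans (hwt z)) (by positivity)
      have h3 : (Real.exp V * Real.sqrt (lam z) * ‖w‖) ^ 2
          = ‖w‖ ^ 2 * (Real.exp (2 * V) * lam z) := by
        rw [mul_pow, mul_pow, Real.sq_sqrt (hpos z).le, ← Real.exp_nat_mul]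
        push_cast
        ring
      apply abs_le_of_sq_le_sq _ (by positivity)
      rw [h3]
      exact h1.trans h2
    intro z
    have h := abs_sub_le_gdist hlamc hell (Real.exp_pos V).le hgrad z 0
    have h0 : ell 0 = 0 := by simp [ell]
    rw [h0, zero_sub, abs_neg, abs_of_nonneg (ell_nonneg z)] at h
    exact h
  have hC : ordH lam (fun z => z) ≤ 1 := by
    obtain ⟨C, hC0, hC⟩ := hB
    unfold ordH
    by_contra hcon
    push Not at hcon
    obtain ⟨b, hb1, hb2⟩ := EReal.lt_iff_exists_real_btwn.1 hcon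
    have hb : (1 : ℝ) < b := by exact_mod_cast hb1
    refine absurd hb2 (not_lt.2 ?_)
    apply limsup_le_of_le
    · isBoundedDefault
    -- the distance tends to infinity
    have hdist : Tendsto (fun p : ℂ => gdist lam p 0) (cocompact ℂ) atTop := by
      rw [tendsto_atTop]
      intro r
      have h1 := hHR r
      have h2 : closure {z | gdist lam 0 z ≤ r} ∈ {s | IsCompact s} := h1.isCompact_closure
      have h3 : (closure {z | gdist lam 0 z ≤ r})ᶜ ∈ cocompact ℂ :=
        IsCompact.compl_mem_cocompact h2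
      filter_upwards [h3] with p hp
      by_contra hlt
      push Not at hlt
      apply hp
      apply subset_closure
      show gdist lam 0 p ≤ r
      rw [gdist_comm]
      exact hlt.le
    have hlogd : Tendsto (fun p : ℂ => Real.log (gdist lam p 0)) (cocompact ℂ) atTop :=
      Real.tendsto_log_atTop.comp hdist
    have e1 : ∀ᶠ p in cocompact ℂ, max 1 (Real.log C / (b - 1)) ≤ Real.log (gdist lam p 0) :=
      hlogd.eventually_ge_atTop _
    have e2 : ∀ᶠ p in cocompact ℂ, 1 ≤ gdist lam p 0 := hdist.eventually_ge_atTop 1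
    have e3 : ∀ᶠ p : ℂ in cocompact ℂ ⊓ 𝓟 {p : ℂ | 1 < ‖p‖}, 1 < ‖p‖ :=
      (eventually_principal.2 (fun p hp => hp)).filter_mono inf_le_right
    filter_upwards [e1.filter_mono inf_le_left, e2.filter_mono inf_le_left, e3] with p h1 h2 h3
    rw [EReal.coe_le_coe_iff]
    have hl1 : 1 ≤ Real.log (gdist lam p 0) := (le_max_left _ _).trans h1
    have hl2 : Real.log C / (b - 1) ≤ Real.log (gdist lam p 0) := (le_max_right _ _).trans h1
    rw [div_le_iff₀ (by linarith)]
    rw [div_le_iff₀ (by linarith)] at hl2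
    have hlp : 0 < Real.log ‖p‖ := Real.log_pos h3
    have h4 : Real.log ‖p‖ ≤ C * gdist lam p 0 := by
      refine le_trans ?_ (hC p)
      have h5 : Real.log (‖p‖ ^ 2) ≤ Real.log (1 + ‖p‖ ^ 2) := by
        apply Real.log_le_log (by positivity)
        linarith
      rw [Real.log_pow] at h5
      push_cast at h5
      linarith
    have h5 : Real.log (Real.log ‖p‖) ≤ Real.log C + Real.log (gdist lam p 0) := by
      rw [← Real.log_mul hC0.ne' (by linarith)]
      exact Real.log_le_log hlp h4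
    nlinarith
  exact ⟨hA, hB, hC, fun z => z, differentiable_id, ⟨0, 1, zero_ne_one⟩, hC⟩

end Pool.Agent.Results.MP_1759d0_gt.HadamardOrder
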